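import Mathlib

/-!
# MP_304c86_co: closed complexity can be bounded along a thick set

The word `x` over `{0, 1}` whose ones sit at the positions `2 ^ (2 ^ i)` is aperiodic, and on the
thick set of all lengths `n` with `2 P i + 2 ≤ n ≤ P (i + 1) - P i - 1`, `P i = 2 ^ (2 ^ i)`, it has
at most two closed factors of length `n`: the word `0 ^ n` and, for odd `n`, the word with a single
one in the middle. Indeed a factor of such a length with at least two ones ends with more zeros than
it has letters before its last one, and such a word is open.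
-/

set_option autoImplicit false

namespace Pool.Agent.Results.MP_304c86_co.ThickSet

/-- The positions at which `u` occurs in `w`. -/
def occ {A : Type} (u w : List A) : Set ℕ := {p | p ≤ w.length ∧ u <+: w.drop p}

/-- A finite word `w` is closed if `|w| ≤ 1` or if it has a border `u ≠ w` that occurs in `w`
exactly twice. -/
def IsClosed {A : Type} (w : List A) : Prop :=
  w.length ≤ 1 ∨ ∃ u, u ≠ w ∧ u <+: w ∧ u <:+ w ∧ (occ u w).ncard = 2

/-- The factor of length `n` of the infinite word `x` at position `s`. -/
def fac {A : Type} (x : ℕ → A) (s n : ℕ) : List A := (List.range n).map fun k => x (s + k)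

/-- The closed complexity: the number of closed factors of length `n` of `x`. -/
noncomputable def cl {A : Type} (x : ℕ → A) (n : ℕ) : ℕ :=
  Set.ncard {w | (∃ s, w = fac x s n) ∧ IsClosed w}

/-- `x` is ultimately periodic. -/
def UltimatelyPeriodic {A : Type} (x : ℕ → A) : Prop :=
  ∃ p N, 1 ≤ p ∧ ∀ n, N ≤ n → x (n + p) = x n

/-- Every interval of `g` consecutive integers meets `S`. -/
def Syndetic (S : Set ℕ) : Prop := ∃ g, ∀ a, ∃ n ∈ S, a ≤ n ∧ n < a + g

/-- `T` contains intervals of every finite length. -/
def Thick (T : Set ℕ) : Prop := ∀ L, ∃ a, ∀ n, a ≤ n → n < a + L → n ∈ T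

/-- `S` is the intersection of a syndetic and a thick set. -/
def PiecewiseSyndetic (S : Set ℕ) : Prop := ∃ S₁ T, Syndetic S₁ ∧ Thick T ∧ S = S₁ ∩ T

theorem fac_length {A : Type} (x : ℕ → A) (s n : ℕ) : (fac x s n).length = n := by simp [fac]

theorem occ_finite {A : Type} (u w : List A) : (occ u w).Finite :=
  (Set.finite_Iic w.length).subset fun _ h => h.1

/-- Membership in `occ` for prefixes of factors. -/
theorem mem_occ {A : Type} {x : ℕ → A} {s n p m : ℕ} {u : List A} (hu : u <+: fac x s n)
    (hm : u.length = m) (hp : p + m ≤ n) (h : ∀ k < m, x (s + (p + k)) = x (s + k)) :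
    p ∈ occ u (fac x s n) := by
  obtain ⟨h1, h2⟩ := List.prefix_iff_getElem.1 hu
  refine ⟨by rw [fac_length]; omega, List.prefix_iff_getElem.2 ⟨?_, ?_⟩⟩
  · rw [List.length_drop, fac_length]
    omega
  · intro k hk
    rw [h2 k hk]
    simp only [fac, List.getElem_map, List.getElem_range, List.getElem_drop]
    exact (h k (by omega)).symm

theorem three_occ {A : Type} {u w : List A} {a b c : ℕ} (ha : a ∈ occ u w) (hb : b ∈ occ u w)
    (hc : c ∈ occ u w) (hab : a < b) (hbc : b < c) : (occ u w).ncard ≠ 2 := by
  intro h
  have h3 : ({a, b, c} : Finset ℕ).card = 3 := by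
    rw [Finset.card_insert_of_notMem, Finset.card_insert_of_notMem, Finset.card_singleton]
    · simp; omega
    · simp; omega
  have : (({a, b, c} : Finset ℕ) : Set ℕ) ⊆ occ u w := by
    intro y hy
    simp only [Finset.coe_insert, Finset.coe_singleton, Set.mem_insert_iff,
      Set.mem_singleton_iff] at hy
    rcases hy with rfl | rfl | rfl <;> assumption
  have := Set.ncard_le_ncard this (occ_finite u w)
  rw [Set.ncard_coe_finset, h3] at this
  omega

/-- What a border says about the word. -/
theorem border {A : Type} {x : ℕ → A} {s n : ℕ} {u : List A} (hne : u ≠ fac x s n)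
    (hu : u <+: fac x s n) (hs : u <:+ fac x s n) :
    u.length < n ∧ ∀ k < u.length, x (s + (n - u.length + k)) = x (s + k) := by
  obtain ⟨h1, h2⟩ := List.prefix_iff_getElem.1 hu
  obtain ⟨h3, h4⟩ := List.suffix_iff_getElem.1 hs
  rw [fac_length] at h1
  have hlt : u.length < n := by
    rcases Nat.lt_or_ge u.length n with h | h
    · exact h
    · exact absurd (hu.eq_of_length (by rw [fac_length]; omega)) hne
  refine ⟨hlt, fun k hk => ?_⟩
  have e1 := h2 k hk
  have e2 := h4 k hk
  rw [e1] at e2
  simp only [fac, List.getElem_map, List.getElem_range, List.length_map,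
    List.length_range] at e2
  rw [← e2]
  congr 2
  omega

/-- A word whose last one is followed by more zeros than there are letters before it is open. -/
theorem open_right {x : ℕ → Bool} {s n c : ℕ} (hc : x (s + c) = true)
    (hz : ∀ k, c < k → k < n → x (s + k) = false) (ht : 2 * c + 1 < n) :
    ¬ IsClosed (fac x s n) := by
  rintro (h | ⟨u, hne, hu, hs, h2⟩)
  · rw [fac_length] at h
    omega
  · obtain ⟨hlt, hb⟩ := border hne hu hs
    generalize hm : u.length = m at hlt hb
    have o0 : 0 ∈ occ u (fac x s n) := mem_occ hu hm (by omega) (by simp)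
    rcases Nat.eq_zero_or_pos m with rfl | hpos
    · exact three_occ o0 (mem_occ (p := 1) hu hm (by omega) (by simp))
        (mem_occ (p := 2) hu hm (by omega) (by simp)) (by norm_num) (by norm_num) h2
    · rcases Nat.lt_or_ge (n - m) (c + 1) with h | h
      · -- the border contains the last one
        have e1 := hb (c - (n - m)) (by omega)
        rw [show n - m + (c - (n - m)) = c by omega, hc] at e1
        have e2 := hb c (by omega)
        rw [hc, hz _ (by omega) (by omega)] at e2
        exact absurd e2 (by simp)
      · have hz2 : ∀ k < m, x (s + k) = false := by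
          intro k hk
          rw [← hb k hk]
          exact hz _ (by omega) (by omega)
        have hmc : m ≤ c := by
          by_contra hcon
          have := hz2 c (by omega)
          rw [hc] at this
          exact absurd this (by simp)
        refine three_occ o0 (mem_occ (p := n - m - 1) hu hm (by omega) ?_)
          (mem_occ (p := n - m) hu hm (by omega) fun k hk => hb k hk) (by omega) (by omega) h2
        intro k hk
        rw [hz2 k hk]
        exact hz _ (by omega) (by omega)

/-- A word with a single one that is nearer to the right end is open. -/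
theorem open_left {x : ℕ → Bool} {s n c : ℕ} (hcn : c < n) (hc : x (s + c) = true)
    (hz : ∀ k, k ≠ c → k < n → x (s + k) = false) (ht : n < 2 * c + 1) :
    ¬ IsClosed (fac x s n) := by
  rintro (h | ⟨u, hne, hu, hs, h2⟩)
  · rw [fac_length] at h
    omega
  · obtain ⟨hlt, hb⟩ := border hne hu hs
    generalize hm : u.length = m at hlt hb
    have o0 : 0 ∈ occ u (fac x s n) := mem_occ hu hm (by omega) (by simp)
    rcases Nat.eq_zero_or_pos m with rfl | hpos
    · exact three_occ o0 (mem_occ (p := 1) hu hm (by omega) (by simp))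
        (mem_occ (p := 2) hu hm (by omega) (by simp)) (by norm_num) (by norm_num) h2
    · rcases Nat.lt_or_ge c m with h | h
      · have e2 := hb c h
        rw [hc, hz _ (by omega) (by omega)] at e2
        exact absurd e2 (by simp)
      · have hmt : c < n - m := by
          by_contra hcon
          have e1 := hb (c - (n - m)) (by omega)
          rw [show n - m + (c - (n - m)) = c by omega, hc, hz _ (by omega) (by omega)] at e1
          exact absurd e1 (by simp)
        refine three_occ o0 (mem_occ (p := 1) hu hm (by omega) ?_)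
          (mem_occ (p := n - m) hu hm (by omega) fun k hk => hb k hk) (by omega) (by omega) h2
        intro k hk
        rw [hz (1 + k) (by omega) (by omega), hz k (by omega) (by omega)]

/-- The positions of the ones. -/
def P (i : ℕ) : ℕ := 2 ^ (2 ^ i)

theorem P_succ (i : ℕ) : P (i + 1) = P i * P i := by
  unfold P
  rw [← pow_add, pow_succ]
  congr 1
  ring

theorem P_two (i : ℕ) : 2 ≤ P i := by
  unfold P
  calc 2 = 2 ^ 1 := by norm_num
    _ ≤ 2 ^ (2 ^ i) := Nat.pow_le_pow_right (by norm_num) Nat.one_le_two_pow

theorem P_strictMono : StrictMono P := by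
  refine strictMono_nat_of_lt_succ fun i => ?_
  rw [P_succ]
  have := P_two i
  nlinarith

theorem lt_P (i : ℕ) : i < P i := by
  have h1 : i < 2 ^ i := Nat.lt_two_pow_self
  have h2 : 2 ^ i < 2 ^ (2 ^ i) := Nat.lt_two_pow_self
  unfold P
  omega

open Classical in
/-- The word with ones at the positions `P i`. -/
noncomputable def word (n : ℕ) : Bool := decide (∃ i, n = P i)

theorem word_eq_true {n : ℕ} : word n = true ↔ ∃ i, n = P i := by simp [word]

theorem word_eq_false {n i : ℕ} (h1 : P i < n) (h2 : n < P (i + 1)) : word n = false := by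
  rw [← Bool.not_eq_true, word_eq_true]
  rintro ⟨j, rfl⟩
  have h3 := P_strictMono.lt_iff_lt.1 h1
  have h4 := P_strictMono.lt_iff_lt.1 h2
  omega

theorem gap {i a b : ℕ} (hab : a < b) (hb : i + 1 ≤ b) : P (i + 1) - P i ≤ P b - P a := by
  obtain ⟨c, rfl⟩ : ∃ c, b = c + 1 := ⟨b - 1, by omega⟩
  have h1 : P i ≤ P c := P_strictMono.monotone (by omega)
  have h2 : P a ≤ P c := P_strictMono.monotone (by omega)
  have h3 := P_succ c
  have h4 := P_succ i
  have h5 := P_two i
  have h6 : P i * P i - P i ≤ P c * P c - P c := by
    have e1 : P i * P i - P i = P i * (P i - 1) := by rw [Nat.mul_sub, mul_one]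
    have e2 : P c * P c - P c = P c * (P c - 1) := by rw [Nat.mul_sub, mul_one]
    rw [e1, e2]
    exact Nat.mul_le_mul h1 (by omega)
  omega

/-- The lengths under consideration. -/
def S : Set ℕ := {n | ∃ i, 2 * P i + 2 ≤ n ∧ n + P i + 1 ≤ P (i + 1)}

theorem closed_cases {n s : ℕ} (hn : n ∈ S) (h : IsClosed (fac word s n)) :
    (∀ k < n, word (s + k) = false) ∨
      (∀ k < n, word (s + k) = decide (2 * k + 1 = n)) := by
  obtain ⟨i, h1, h2⟩ := hn
  by_cases h0 : ∀ k < n, word (s + k) = false
  · exact Or.inl h0
  right
  push Not at h0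
  obtain ⟨a, ha, ha1⟩ := h0
  replace ha1 : word (s + a) = true := by simpa using ha1
  by_cases h3 : ∀ k < n, k ≠ a → word (s + k) = false
  · -- a single one
    have h4 : 2 * a + 1 = n := by
      rcases lt_trichotomy (2 * a + 1) n with h5 | h5 | h5
      · exact absurd h (open_right ha1 (fun k hk hk2 => h3 k hk2 (by omega)) h5)
      · exact h5
      · exact absurd h (open_left ha ha1 (fun k hk hk2 => h3 k hk2 hk) h5)
    intro k hk
    by_cases hka : k = a
    · subst hka
      rw [ha1]
      simp [h4]
    · rw [h3 k hk hka]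
      have : 2 * k + 1 ≠ n := by omega
      simp [this]
  · -- at least two ones
    exfalso
    push Not at h3
    obtain ⟨b, hb, hba, hb1⟩ := h3
    replace hb1 : word (s + b) = true := by simpa using hb1
    obtain ⟨c, d, hcd, hd, hc1, hd1⟩ : ∃ c d, c < d ∧ d < n ∧ word (s + c) = true ∧
        word (s + d) = true := by
      rcases Nat.lt_or_gt_of_ne hba with h5 | h5
      · exact ⟨b, a, h5, ha, hb1, ha1⟩
      · exact ⟨a, b, h5, hb, ha1, hb1⟩
    obtain ⟨j, hj⟩ := word_eq_true.1 hc1
    obtain ⟨l, hl⟩ := word_eq_true.1 hd1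
    have hjl : j < l := P_strictMono.lt_iff_lt.1 (by omega)
    have hli : l ≤ i := by
      by_contra hcon
      have := gap hjl (by omega : i + 1 ≤ l)
      have := P_strictMono hjl
      omega
    have hPl : P l ≤ P i := P_strictMono.monotone hli
    have hlast : word (s + (P i - s)) = true := by
      rw [show s + (P i - s) = P i by omega]
      exact word_eq_true.2 ⟨i, rfl⟩
    refine open_right hlast ?_ (by omega) h
    intro k hk hk2
    exact word_eq_false (i := i) (by omega) (by omega)

theorem cl_le {n : ℕ} (hn : n ∈ S) : cl word n ≤ 2 := by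
  have hsub : {w | (∃ s, w = fac word s n) ∧ IsClosed w} ⊆
      {(List.range n).map (fun _ => false), (List.range n).map (fun k => decide (2 * k + 1 = n))} := by
    rintro w ⟨⟨s, rfl⟩, hc⟩
    rcases closed_cases hn hc with h | h
    · left
      refine List.map_congr_left fun k hk => h k (List.mem_range.1 hk)
    · right
      refine List.map_congr_left fun k hk => h k (List.mem_range.1 hk)
  refine (Set.ncard_le_ncard hsub ((Set.finite_singleton _).insert _)).trans ?_
  refine (Set.ncard_insert_le _ _).trans ?_
  rw [Set.ncard_singleton]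

theorem aperiodic : ¬ UltimatelyPeriodic word := by
  rintro ⟨p, N, hp, h⟩
  -- choose a one beyond `N` and followed by a gap longer than `p`
  let i := N + p + 2
  have h1 : N + p + 2 < P i := lt_P i
  have h2 := P_succ i
  have h3 : word (P i + p) = true := by
    rw [h (P i) (by omega)]
    exact word_eq_true.2 ⟨i, rfl⟩
  rw [word_eq_false (i := i) (by omega) (by nlinarith)] at h3
  exact absurd h3 (by simp)

theorem S_thick : Thick S := by
  intro L
  obtain ⟨i, hi⟩ : ∃ i, i = L + 6 := ⟨_, rfl⟩
  refine ⟨2 * P i + 2, fun n h1 h2 => ⟨i, h1, ?_⟩⟩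
  have h3 := lt_P i
  have h4 := P_succ i
  nlinarith

/-- There are an aperiodic infinite word `x` over the alphabet `{false, true}` and a piecewise
syndetic set `S` (even a thick one, in particular an infinite set) such that `cl_x(n) ≤ 2` for all
`n ∈ S`. -/
theorem result : ∃ (x : ℕ → Bool) (S : Set ℕ), ¬ UltimatelyPeriodic x ∧ PiecewiseSyndetic S ∧
    Thick S ∧ S.Infinite ∧ ∀ n ∈ S, cl x n ≤ 2 := by
  refine ⟨word, S, aperiodic, ⟨Set.univ, S, ⟨1, fun a => ⟨a, trivial, le_refl _, by omega⟩⟩,
    S_thick, by simp⟩, S_thick, ?_, fun n hn => cl_le hn⟩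
  rw [Set.infinite_iff_exists_gt]
  intro a
  obtain ⟨i, hi⟩ : ∃ i, i = a + 6 := ⟨_, rfl⟩
  have h3 := lt_P i
  have h4 := P_succ i
  refine ⟨2 * P i + 2, ⟨i, le_refl _, ?_⟩, ?_⟩
  · nlinarith
  · omega

end Pool.Agent.Results.MP_304c86_co.ThickSet
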